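import Pool.Agent.Helper68.KurBase

/-!
Crude growth of the number of cubic graphs (module KUR-M2 of MP_1448dd_pr).
-/

set_option autoImplicit false

namespace Pool.Agent.Helper69.Kur

open Pool.Agent.Helper68.Kur Finset Filter Topology

open Classical in
theorem mem_cub {V : Type} [Fintype V] (G : SimpleGraph V) :
    G ∈ Cub V ↔ ∀ v : V, (Finset.univ.filter (fun w => G.Adj v w)).card = 3 := by
  unfold Cub
  rw [Finset.mem_filter]
  simp

open Classical in
theorem cub_transport {V W : Type} [Fintype V] [Fintype W] (e : W ≃ V) {G : SimpleGraph V}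
    (hG : G ∈ Cub V) : G.comap e ∈ Cub W := by
  rw [mem_cub] at hG ⊢
  intro v
  rw [← hG (e v)]
  apply Finset.card_bij (fun w _ => e w)
  · intro a ha
    simpa using ha
  · intro a _ b _ h
    exact e.injective h
  · intro b hb
    exact ⟨e.symm b, by simpa using hb, by simp⟩

/-- disjoint union of `k` copies of `K₄` -/
def k4s (k : ℕ) : SimpleGraph (Fin k × Fin 4) where
  Adj x y := x.1 = y.1 ∧ x.2 ≠ y.2
  symm := ⟨fun _ _ h => ⟨h.1.symm, h.2.symm⟩⟩
  loopless := ⟨fun _ h => h.2 rfl⟩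

open Classical in
theorem k4s_mem (k : ℕ) : k4s k ∈ Cub (Fin k × Fin 4) := by
  rw [mem_cub]
  rintro ⟨a, x⟩
  have h1 : (Finset.univ.filter (fun w : Fin k × Fin 4 => (k4s k).Adj (a, x) w)) =
      (Finset.univ.filter (fun y : Fin 4 => y ≠ x)).map
        ⟨fun y => (a, y), fun y z h => (Prod.mk.inj h).2⟩ := by
    ext ⟨b, y⟩
    rw [Finset.mem_filter, Finset.mem_map]
    constructor
    · rintro ⟨-, h1, h2⟩
      have h1' : a = b := h1
      have h2' : x ≠ y := h2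
      subst h1'
      exact ⟨y, Finset.mem_filter.2 ⟨Finset.mem_univ _, fun h => h2' h.symm⟩, rfl⟩
    · rintro ⟨z, hz, h⟩
      rw [Finset.mem_filter] at hz
      have h' : (a, z) = (b, y) := h
      obtain ⟨h1, h2⟩ := Prod.mk.inj h'
      subst h1
      subst h2
      exact ⟨Finset.mem_univ _, rfl, fun h => hz.2 h.symm⟩
  rw [h1, Finset.card_map, Finset.filter_ne']
  simp

theorem cub_pos (k : ℕ) : 0 < (Cub (Fin (k * 4))).card := by
  rw [Finset.card_pos]
  exact ⟨_, cub_transport finProdFinEquiv.symm (k4s_mem k)⟩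

open Classical in
theorem cub_card_le (m : ℕ) :
    (Cub (Fin (2 * m))).card ≤ Nat.choose (Fintype.card (Sym2 (Fin (2 * m)))) (3 * m) := by
  rw [← Finset.card_univ, ← Finset.card_powersetCard]
  apply Finset.card_le_card_of_injOn (fun G => G.edgeFinset)
  · intro G hG
    rw [Finset.mem_coe, mem_cub] at hG
    rw [Finset.mem_coe, Finset.mem_powersetCard]
    refine ⟨Finset.subset_univ _, ?_⟩
    have h1 := G.sum_degrees_eq_twice_card_edges
    have h2 : ∀ v, G.degree v = 3 := by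
      intro v
      rw [← hG v, ← SimpleGraph.card_neighborFinset_eq_degree]
      congr 1
      ext w
      simp
    simp only [h2, Finset.sum_const, Finset.card_univ, Fintype.card_fin, smul_eq_mul] at h1
    have h3 : G.edgeFinset.card = 3 * m := by omega
    convert h3
  · intro G _ G' _ h
    simpa using h

theorem cub_card_bound {m : ℕ} (hm : 1 ≤ m) :
    ((Cub (Fin (2 * m))).card : ℝ) ≤ (4 * (m : ℝ)) ^ (3 * m) := by
  have h1 := cub_card_le m
  have h2 : Fintype.card (Sym2 (Fin (2 * m))) ≤ 4 * m ^ 2 := by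
    rw [Sym2.card, Fintype.card_fin, Nat.choose_two_right]
    have : (2 * m + 1) * (2 * m + 1 - 1) / 2 = (2 * m + 1) * m := by
      rw [Nat.add_sub_cancel, show (2 * m + 1) * (2 * m) = ((2 * m + 1) * m) * 2 by ring,
        Nat.mul_div_cancel _ (by norm_num)]
    rw [this]
    nlinarith
  have h3 : ((Cub (Fin (2 * m))).card : ℝ) ≤ (Nat.choose (4 * m ^ 2) (3 * m) : ℝ) := by
    exact_mod_cast h1.trans (Nat.choose_le_choose _ h2)
  have h4 : (Nat.choose (4 * m ^ 2) (3 * m) : ℝ) ≤ ((4 * m ^ 2 : ℕ) : ℝ) ^ (3 * m) /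
      ((3 * m).factorial : ℝ) := Nat.choose_le_pow_div _ _
  have hm' : (1 : ℝ) ≤ m := by exact_mod_cast hm
  have h5 := Real.pow_div_factorial_le_exp ((3 * m : ℕ) : ℝ) (Nat.cast_nonneg _) (3 * m)
  have hfac : (0 : ℝ) < ((3 * m).factorial : ℝ) := by exact_mod_cast Nat.factorial_pos _
  have h6 : Real.exp ((3 * m : ℕ) : ℝ) ≤ 3 ^ (3 * m) := by
    have : Real.exp ((3 * m : ℕ) : ℝ) = (Real.exp 1) ^ (3 * m) := by
      rw [← Real.exp_nat_mul, mul_one]
    rw [this]
    exact pow_le_pow_left₀ (Real.exp_pos _).le (by linarith [Real.exp_one_lt_d9]) _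
  -- (3m)^(3m) ≤ 3^(3m) (3m)!
  have h7 : (m : ℝ) ^ (3 * m) ≤ ((3 * m).factorial : ℝ) := by
    have h8 := h5.trans h6
    rw [div_le_iff₀ hfac] at h8
    push_cast at h8
    rw [mul_pow] at h8
    have h9 : (0 : ℝ) < 3 ^ (3 * m) := by positivity
    exact le_of_mul_le_mul_left h8 h9
  calc ((Cub (Fin (2 * m))).card : ℝ) ≤ _ := h3.trans h4
    _ ≤ ((4 * m ^ 2 : ℕ) : ℝ) ^ (3 * m) / (m : ℝ) ^ (3 * m) := by
        apply div_le_div_of_nonneg_left (by positivity) (by positivity) h7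
    _ = (4 * (m : ℝ)) ^ (3 * m) := by
        rw [← div_pow]
        congr 1
        push_cast
        field_simp

theorem growth : ∃ C : ℝ, 0 < C ∧ (∃ᶠ m : ℕ in Filter.atTop, 0 < (Cub (Fin (2 * m))).card ∧
    ((Cub (Fin (2 * m + 4))).card : ℝ) ≤ C * (m : ℝ) ^ 6 * ((Cub (Fin (2 * m))).card : ℝ)) := by
  refine ⟨2 * 36 ^ 6, by norm_num, ?_⟩
  intro hev
  rw [Filter.eventually_atTop] at hev
  obtain ⟨M, hM⟩ := hev
  set C : ℝ := 2 * 36 ^ 6 with hC
  set m1 := 2 * (M + 1) with hm1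
  set N : ℕ → ℕ := fun n => (Cub (Fin n)).card with hN
  have hM' : ∀ m, M ≤ m → 0 < N (2 * m) → C * (m : ℝ) ^ 6 * (N (2 * m) : ℝ) <
      (N (2 * m + 4) : ℝ) := by
    intro m hm hpos
    by_contra hne
    push Not at hne
    exact hM m hm ⟨hpos, hne⟩
  have hstart : 0 < N (2 * m1) := by
    have : 2 * m1 = (M + 1) * 4 := by rw [hm1]; ring
    rw [this]
    exact cub_pos (M + 1)
  have hlow : ∀ i : ℕ, 0 < N (2 * (m1 + 2 * i)) ∧
      C ^ i * ((i.factorial : ℝ)) ^ 6 ≤ (N (2 * (m1 + 2 * i)) : ℝ) := by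
    intro i
    induction i with
    | zero =>
      refine ⟨hstart, ?_⟩
      simp only [pow_zero, Nat.factorial_zero, Nat.cast_one, one_pow, mul_one]
      exact_mod_cast hstart
    | succ i ih =>
      obtain ⟨h1, h2⟩ := ih
      have h3 := hM' (m1 + 2 * i) (by omega) h1
      have e : 2 * (m1 + 2 * (i + 1)) = 2 * (m1 + 2 * i) + 4 := by ring
      rw [e]
      have hCpos : 0 < C := by rw [hC]; norm_num
      have h4 : ((i + 1 : ℕ) : ℝ) ≤ ((m1 + 2 * i : ℕ) : ℝ) := by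
        exact_mod_cast (by omega : i + 1 ≤ m1 + 2 * i)
      have h5 : C ^ (i + 1) * (((i + 1).factorial : ℝ)) ^ 6 ≤
          C * ((m1 + 2 * i : ℕ) : ℝ) ^ 6 * (N (2 * (m1 + 2 * i)) : ℝ) := by
        calc C ^ (i + 1) * (((i + 1).factorial : ℝ)) ^ 6
            = C * ((i + 1 : ℕ) : ℝ) ^ 6 * (C ^ i * ((i.factorial : ℝ)) ^ 6) := by
              rw [Nat.factorial_succ]; push_cast; ring
          _ ≤ C * ((m1 + 2 * i : ℕ) : ℝ) ^ 6 * (N (2 * (m1 + 2 * i)) : ℝ) := by
              apply mul_le_mul _ h2 (by positivity) (by positivity)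
              apply mul_le_mul_of_nonneg_left _ hCpos.le
              exact pow_le_pow_left₀ (by positivity) h4 6
      have h6 := h5.trans_lt h3
      refine ⟨?_, h6.le⟩
      have h7 : (0 : ℝ) < (N (2 * (m1 + 2 * i) + 4) : ℝ) := lt_of_le_of_lt (by positivity) h6
      exact_mod_cast h7
  -- choose i large
  have hT : Tendsto (fun i : ℕ => (i : ℝ) ^ (3 * m1) / 2 ^ i) atTop (𝓝 0) :=
    tendsto_pow_const_div_const_pow_of_one_lt _ (by norm_num)
  have hev2 := hT.eventually_lt_const (u := 1 / (12 : ℝ) ^ (3 * m1)) (by positivity)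
  obtain ⟨i, hi1, hi2⟩ := (hev2.and (eventually_ge_atTop (max m1 1))).exists
  have him : m1 ≤ i := (le_max_left _ _).trans hi2
  have hi0 : 1 ≤ i := (le_max_right _ _).trans hi2
  have hiR : (1 : ℝ) ≤ i := by exact_mod_cast hi0
  have hup := cub_card_bound (m := m1 + 2 * i) (by omega)
  have hlo := (hlow i).2
  have h1 : C ^ i * ((i.factorial : ℝ)) ^ 6 ≤ (4 * ((m1 + 2 * i : ℕ) : ℝ)) ^ (3 * (m1 + 2 * i)) :=
    hlo.trans hup
  have h2 : (4 * ((m1 + 2 * i : ℕ) : ℝ)) ^ (3 * (m1 + 2 * i)) ≤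
      (12 * (i : ℝ)) ^ (3 * (m1 + 2 * i)) := by
    apply pow_le_pow_left₀ (by positivity)
    have : ((m1 + 2 * i : ℕ) : ℝ) ≤ 3 * i := by exact_mod_cast (by omega : m1 + 2 * i ≤ 3 * i)
    linarith
  have h3 : ((i : ℝ) / 3) ^ i ≤ (i.factorial : ℝ) := by
    have h5 := Real.pow_div_factorial_le_exp (i : ℝ) (Nat.cast_nonneg _) i
    have h6 : Real.exp (i : ℝ) ≤ 3 ^ i := by
      have : Real.exp (i : ℝ) = (Real.exp 1) ^ i := by rw [← Real.exp_nat_mul, mul_one]
      rw [this]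
      exact pow_le_pow_left₀ (Real.exp_pos _).le (by linarith [Real.exp_one_lt_d9]) _
    have hfac : (0 : ℝ) < (i.factorial : ℝ) := by exact_mod_cast Nat.factorial_pos _
    have h7 := h5.trans h6
    rw [div_le_iff₀ hfac] at h7
    rw [div_pow, div_le_iff₀ (by positivity)]
    linarith
  have h4 : C ^ i * (((i : ℝ) / 3) ^ i) ^ 6 ≤ (12 * (i : ℝ)) ^ (3 * (m1 + 2 * i)) := by
    refine le_trans ?_ (h1.trans h2)
    apply mul_le_mul_of_nonneg_left _ (by positivity)
    exact pow_le_pow_left₀ (by positivity) h3 6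
  -- simplify
  have e1 : C ^ i * (((i : ℝ) / 3) ^ i) ^ 6 = 2 ^ i * (12 * (i : ℝ)) ^ (6 * i) := by
    have e2 : ((36 : ℝ) ^ 6) ^ i = 12 ^ (6 * i) * 3 ^ (6 * i) := by
      rw [← mul_pow, ← pow_mul]; norm_num
    have e4 : (((i : ℝ) / 3) ^ i) ^ 6 = (i : ℝ) ^ (6 * i) / 3 ^ (6 * i) := by
      rw [← pow_mul, mul_comm i 6, div_pow]
    rw [hC, mul_pow, e2, e4, mul_pow]
    field_simp
  have e3 : (12 * (i : ℝ)) ^ (3 * (m1 + 2 * i)) =
      (12 * (i : ℝ)) ^ (3 * m1) * (12 * (i : ℝ)) ^ (6 * i) := by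
    rw [← pow_add]; congr 1; ring
  rw [e1, e3] at h4
  have h5 : (2 : ℝ) ^ i ≤ (12 * (i : ℝ)) ^ (3 * m1) :=
    le_of_mul_le_mul_right h4 (by positivity)
  rw [div_lt_div_iff₀ (by positivity) (by positivity)] at hi1
  rw [mul_pow] at h5
  linarith

end Pool.Agent.Helper69.Kur
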