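import Pool.Agent.Helper69.Kur.Switch

/-!
First moment of short cycles in cubic graphs (module KUR-M1 of MP_1448dd_pr).
-/

set_option autoImplicit false

namespace Pool.Agent.Helper69.Kur

open Pool.Agent.Helper68.Kur Finset

/-- labelled cycles of length `k+3` -/
noncomputable def cyc {V : Type} [Fintype V] (G : SimpleGraph V) (k : ℕ) :
    Finset (Fin (k + 3) → V) := by
  classical
  exact Finset.univ.filter (fun f => Function.Injective f ∧ ∀ i, G.Adj (f i) (f (i + 1)))

theorem mem_cyc {V : Type} [Fintype V] (G : SimpleGraph V) (k : ℕ) (f : Fin (k + 3) → V) :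
    f ∈ cyc G k ↔ Function.Injective f ∧ ∀ i, G.Adj (f i) (f (i + 1)) := by
  unfold cyc; simp

/-- edges of a labelled cycle -/
noncomputable def Ff {V : Type} {k : ℕ} (f : Fin (k + 3) → V) : Finset (Sym2 V) := by
  classical
  exact Finset.univ.image (fun i => s(f i, f (i + 1)))

theorem card_Ff {V : Type} {k : ℕ} {f : Fin (k + 3) → V} (hf : Function.Injective f) :
    (Ff f).card = k + 3 := by
  classical
  unfold Ff
  rw [Finset.card_image_of_injective, Finset.card_univ, Fintype.card_fin]
  intro i j h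
  simp only [Sym2.eq_iff] at h
  rcases h with ⟨h1, h2⟩ | ⟨h1, h2⟩
  · exact hf h1
  · exfalso
    have e1 := hf h1
    have e2 := hf h2
    rw [e1, add_assoc] at e2
    have e3 : (1 + 1 : Fin (k + 3)) = 0 := by
      have := congrArg (fun t => -j + t) e2
      simpa using this
    have e4 := congrArg Fin.val e3
    rw [Fin.val_add] at e4
    have e5 : ((1 : Fin (k + 3)) : ℕ) = 1 := by
      rw [Fin.val_one']
      exact Nat.mod_eq_of_lt (by omega)
    rw [e5, Nat.mod_eq_of_lt (by omega)] at e4
    simp at e4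

theorem mem_EF_Ff {V : Type} [Fintype V] (G : SimpleGraph V) {k : ℕ} (f : Fin (k + 3) → V) :
    G ∈ EF (Ff f) ↔ G ∈ Cub V ∧ ∀ i, G.Adj (f i) (f (i + 1)) := by
  classical
  rw [mem_EF]
  unfold Ff
  simp [SimpleGraph.mem_edgeSet]

theorem cyc_sum {V : Type} [Fintype V] (k : ℕ) (h : k + 3 + 15 ≤ Fintype.card V) :
    ∑ G ∈ Cub V, (cyc G k).card ≤ 9 ^ (k + 3) * (Cub V).card := by
  classical
  set I : Finset (Fin (k + 3) → V) := Finset.univ.filter (fun f => Function.Injective f) with hI
  have h1 : ∑ G ∈ Cub V, (cyc G k).card = ∑ f ∈ I, (EF (Ff f)).card := by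
    have a1 : ∀ G ∈ Cub V, (cyc G k).card =
        ∑ f ∈ I, (if (∀ i, G.Adj (f i) (f (i + 1))) then 1 else 0) := by
      intro G _
      rw [← Finset.card_filter, hI, Finset.filter_filter]
      congr 1
    have a2 : ∀ f ∈ I, (EF (Ff f)).card =
        ∑ G ∈ Cub V, (if (∀ i, G.Adj (f i) (f (i + 1))) then 1 else 0) := by
      intro f _
      rw [← Finset.card_filter]
      congr 1
      ext G
      rw [mem_EF_Ff, Finset.mem_filter]
    rw [Finset.sum_congr rfl a1, Finset.sum_congr rfl a2, Finset.sum_comm]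
  have hn : 0 < Fintype.card V := by omega
  have h2 : (∑ G ∈ Cub V, (cyc G k).card) * (Fintype.card V) ^ (k + 3) ≤
      (9 ^ (k + 3) * (Cub V).card) * (Fintype.card V) ^ (k + 3) := by
    rw [h1, Finset.sum_mul]
    calc ∑ f ∈ I, (EF (Ff f)).card * (Fintype.card V) ^ (k + 3)
        ≤ ∑ f ∈ I, 9 ^ (k + 3) * (Cub V).card := by
          apply Finset.sum_le_sum
          intro f hf
          have hf' : Function.Injective f := (Finset.mem_filter.1 hf).2
          have := EF_bound (Ff f) (by rw [card_Ff hf']; exact h)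
          rwa [card_Ff hf'] at this
      _ = I.card * (9 ^ (k + 3) * (Cub V).card) := by rw [Finset.sum_const, smul_eq_mul]
      _ ≤ (Fintype.card V) ^ (k + 3) * (9 ^ (k + 3) * (Cub V).card) := by
          apply Nat.mul_le_mul_right
          refine (Finset.card_le_univ _).trans ?_
          rw [Fintype.card_fun, Fintype.card_fin]
      _ = _ := by ring
  exact Nat.le_of_mul_le_mul_right h2 (by positivity)

theorem c4_le {V : Type} [Fintype V] (G : SimpleGraph V) : (c4 G).card ≤ (cyc G 1).card := by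
  classical
  apply Finset.card_le_card_of_injOn (fun x => (![x.1, x.2.1, x.2.2.1, x.2.2.2] : Fin 4 → V))
  · rintro ⟨a, b, c, d⟩ h
    rw [Finset.mem_coe, c4, Finset.mem_filter] at h
    obtain ⟨-, h1, h2, h3, h4, h5, h6⟩ := h
    simp only at h1 h2 h3 h4 h5 h6
    rw [Finset.mem_coe, mem_cyc]
    have e1 := h3.ne
    have e2 := h4.ne
    have e3 := h5.ne
    have e4 := h6.ne
    constructor
    · intro i j hij
      fin_cases i <;> fin_cases j <;> simp_all [eq_comm]
    · intro i
      fin_cases i
      · exact h3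
      · exact h4
      · exact h5
      · exact h6
  · rintro ⟨a, b, c, d⟩ _ ⟨a', b', c', d'⟩ _ h
    have h0 := congrFun h 0
    have h1 := congrFun h 1
    have h2 := congrFun h 2
    have h3 := congrFun h 3
    simp at h0 h1 h2 h3
    rw [h0, h1, h2, h3]

theorem bl_walk {V : Type} [Fintype V] (H : SimpleGraph V) (x : V) (k : ℕ) :
    ∀ z, z ∈ bl H x k → ∃ p : H.Walk x z, p.length ≤ k := by
  induction k with
  | zero =>
    intro z hz
    simp only [bl, Finset.mem_singleton] at hz
    subst hz
    exact ⟨SimpleGraph.Walk.nil, le_refl _⟩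
  | succ k ih =>
    intro z hz
    simp only [bl, Finset.mem_union, Finset.mem_filter, Finset.mem_univ, true_and] at hz
    rcases hz with hz | ⟨y, hy, hyz⟩
    · obtain ⟨p, hp⟩ := ih z hz
      exact ⟨p, by omega⟩
    · obtain ⟨p, hp⟩ := ih y hy
      exact ⟨p.concat hyz, by rw [SimpleGraph.Walk.length_concat]; omega⟩

theorem short_cyc {V : Type} [Fintype V] (G : SimpleGraph V) (R : ℕ) (u v : V)
    (h : (u, v) ∈ shortE G R) :
    ∃ k, k < 2 * R ∧ ∃ f ∈ cyc G k, f 0 = u ∧ f (Fin.last (k + 2)) = v := by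
  classical
  rw [shortE, Finset.mem_filter] at h
  obtain ⟨-, hadj, hnd⟩ := h
  simp only at hadj hnd
  rw [Finset.not_disjoint_iff] at hnd
  obtain ⟨z, hz1, hz2⟩ := hnd
  obtain ⟨p, hp⟩ := bl_walk _ _ _ _ hz1
  obtain ⟨q, hq⟩ := bl_walk _ _ _ _ hz2
  set w := (p.append q.reverse).bypass with hw
  have hwp : w.IsPath := SimpleGraph.Walk.bypass_isPath _
  have hwl : w.length ≤ 2 * R := by
    refine (SimpleGraph.Walk.length_bypass_le_length _).trans ?_
    rw [SimpleGraph.Walk.length_append, SimpleGraph.Walk.length_reverse]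
    omega
  have hw0 : w.length ≠ 0 := by
    intro h0
    have := SimpleGraph.Walk.eq_of_length_eq_zero h0
    exact hadj.ne this
  have hw1 : w.length ≠ 1 := by
    intro h1
    have h2 := w.adj_getVert_succ (i := 0) (by omega)
    rw [SimpleGraph.Walk.getVert_zero] at h2
    have h3 : w.getVert (0 + 1) = v := by
      have : 0 + 1 = w.length := by omega
      rw [this, SimpleGraph.Walk.getVert_length]
    rw [h3] at h2
    exact h2.2 (Or.inl ⟨rfl, rfl⟩)
  obtain ⟨k, hk⟩ : ∃ k, w.length = k + 2 := ⟨w.length - 2, by omega⟩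
  refine ⟨k, by omega, fun i => w.getVert i, ?_, ?_, ?_⟩
  · rw [mem_cyc]
    constructor
    · intro i j hij
      have hi : (i : ℕ) ≤ w.length := by have := i.2; omega
      have hj : (j : ℕ) ≤ w.length := by have := j.2; omega
      exact Fin.ext (hwp.getVert_injOn hi hj hij)
    · intro i
      by_cases hi : (i : ℕ) < k + 2
      · have h2 := w.adj_getVert_succ (i := i) (by omega)
        have h3 : ((i + 1 : Fin (k + 3)) : ℕ) = (i : ℕ) + 1 := by
          rw [Fin.val_add, Fin.val_one', Nat.add_mod_mod]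
          exact Nat.mod_eq_of_lt (by omega)
        rw [h3]
        exact h2.1
      · have h4 : i = Fin.last (k + 2) := by
          apply Fin.ext
          rw [Fin.val_last]
          have := i.2
          omega
        subst h4
        rw [Fin.last_add_one]
        have h5 : w.getVert ((Fin.last (k + 2) : Fin (k + 3)) : ℕ) = v := by
          rw [Fin.val_last, ← hk, SimpleGraph.Walk.getVert_length]
        have h6 : w.getVert ((0 : Fin (k + 3)) : ℕ) = u := by
          rw [Fin.val_zero, SimpleGraph.Walk.getVert_zero]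
        rw [h5, h6]
        exact hadj.symm
  · simp
  · simp only [Fin.val_last]
    rw [← hk, SimpleGraph.Walk.getVert_length]

theorem shortE_le {V : Type} [Fintype V] (G : SimpleGraph V) (R : ℕ) :
    (shortE G R).card ≤ ∑ k ∈ Finset.range (2 * R), (cyc G k).card := by
  classical
  have h1 : shortE G R ⊆ (Finset.range (2 * R)).biUnion
      (fun k => (cyc G k).image (fun f => (f 0, f (Fin.last (k + 2))))) := by
    rintro ⟨u, v⟩ h
    obtain ⟨k, hk, f, hf, h0, h1⟩ := short_cyc G R u v h
    rw [Finset.mem_biUnion]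
    refine ⟨k, Finset.mem_range.2 hk, ?_⟩
    rw [Finset.mem_image]
    exact ⟨f, hf, by rw [h0, h1]⟩
  refine (Finset.card_le_card h1).trans (Finset.card_biUnion_le.trans ?_)
  exact Finset.sum_le_sum (fun k _ => Finset.card_image_le)

theorem short_count (R : ℕ) : ∃ C : ℝ, ∀ (V : Type) [Fintype V],
    (∑ G ∈ Cub V, (((shortE G R).card : ℝ) + ((c4 G).card : ℝ))) ≤ C * ((Cub V).card : ℝ) := by
  classical
  set n0 := 2 * R + 20 with hn0
  refine ⟨(((n0 ^ 2 + n0 ^ 4) + (∑ k ∈ Finset.range (2 * R), 9 ^ (k + 3) + 9 ^ 4) : ℕ) : ℝ), ?_⟩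
  intro V _
  have key : (∑ G ∈ Cub V, ((shortE G R).card + (c4 G).card)) ≤
      ((n0 ^ 2 + n0 ^ 4) + (∑ k ∈ Finset.range (2 * R), 9 ^ (k + 3) + 9 ^ 4)) *
        (Cub V).card := by
    by_cases hV : Fintype.card V < n0
    · have h1 : ∀ G ∈ Cub V, (shortE G R).card + (c4 G).card ≤ n0 ^ 2 + n0 ^ 4 := by
        intro G _
        have a1 : (shortE G R).card ≤ Fintype.card V ^ 2 := by
          refine (Finset.card_le_univ _).trans ?_
          rw [Fintype.card_prod, sq]
        have a2 : (c4 G).card ≤ Fintype.card V ^ 4 := by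
          refine (Finset.card_le_univ _).trans (le_of_eq ?_)
          rw [Fintype.card_prod, Fintype.card_prod, Fintype.card_prod]
          ring
        have a3 := Nat.pow_le_pow_left hV.le 2
        have a4 := Nat.pow_le_pow_left hV.le 4
        omega
      calc ∑ G ∈ Cub V, ((shortE G R).card + (c4 G).card) ≤ ∑ G ∈ Cub V, (n0 ^ 2 + n0 ^ 4) :=
            Finset.sum_le_sum h1
        _ = (n0 ^ 2 + n0 ^ 4) * (Cub V).card := by rw [Finset.sum_const, smul_eq_mul, mul_comm]
        _ ≤ _ := Nat.mul_le_mul_right _ (Nat.le_add_right _ _)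
    · push Not at hV
      calc ∑ G ∈ Cub V, ((shortE G R).card + (c4 G).card)
          ≤ ∑ G ∈ Cub V, (∑ k ∈ Finset.range (2 * R), (cyc G k).card + (cyc G 1).card) :=
            Finset.sum_le_sum (fun G _ => Nat.add_le_add (shortE_le G R) (c4_le G))
        _ = ∑ k ∈ Finset.range (2 * R), (∑ G ∈ Cub V, (cyc G k).card) +
            ∑ G ∈ Cub V, (cyc G 1).card := by
            rw [Finset.sum_add_distrib, Finset.sum_comm]
        _ ≤ ∑ k ∈ Finset.range (2 * R), (9 ^ (k + 3) * (Cub V).card) +
            9 ^ (1 + 3) * (Cub V).card := by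
            apply Nat.add_le_add
            · apply Finset.sum_le_sum
              intro k hk
              rw [Finset.mem_range] at hk
              exact cyc_sum k (by omega)
            · exact cyc_sum 1 (by omega)
        _ = (∑ k ∈ Finset.range (2 * R), 9 ^ (k + 3) + 9 ^ 4) * (Cub V).card := by
            rw [← Finset.sum_mul, add_mul]
        _ ≤ _ := Nat.mul_le_mul_right _ (Nat.le_add_left _ _)
  exact_mod_cast key

end Pool.Agent.Helper69.Kur
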