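import Pool.Agent.Helper69.Kur.Growth

/-!
Switching lemma for cubic graphs (module KUR-M1 of MP_1448dd_pr).
-/

set_option autoImplicit false

namespace Pool.Agent.Helper69.Kur

open Pool.Agent.Helper68.Kur Finset

/-- cubic graphs containing all the edges of `F` -/
noncomputable def EF {V : Type} [Fintype V] (F : Finset (Sym2 V)) : Finset (SimpleGraph V) := by
  classical
  exact (Cub V).filter (fun G => ∀ e ∈ F, e ∈ G.edgeSet)

theorem mem_EF {V : Type} [Fintype V] (F : Finset (Sym2 V)) (G : SimpleGraph V) :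
    G ∈ EF F ↔ G ∈ Cub V ∧ ∀ e ∈ F, e ∈ G.edgeSet := by
  classical
  unfold EF
  rw [Finset.mem_filter]

/-- neighbours -/
noncomputable def nb {V : Type} [Fintype V] (G : SimpleGraph V) (w : V) : Finset V := by
  classical
  exact Finset.univ.filter (fun z => G.Adj w z)

theorem mem_nb {V : Type} [Fintype V] (G : SimpleGraph V) (w z : V) : z ∈ nb G w ↔ G.Adj w z := by
  unfold nb; simp

theorem cub_iff_nb {V : Type} [Fintype V] (G : SimpleGraph V) :
    G ∈ Cub V ↔ ∀ w, (nb G w).card = 3 := by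
  classical
  rw [mem_cub]
  constructor
  · intro h w
    rw [← h w]
    congr 1
  · intro h w
    rw [← h w]
    congr 1

/-- switched graph -/
def sw {V : Type} (G : SimpleGraph V) (u v x y : V) : SimpleGraph V where
  Adj a b := a ≠ b ∧ ((G.Adj a b ∧ s(a, b) ≠ s(u, v) ∧ s(a, b) ≠ s(x, y)) ∨
    s(a, b) = s(u, x) ∨ s(a, b) = s(v, y))
  symm := ⟨fun a b h => by
    rw [Sym2.eq_swap (a := b) (b := a)]
    exact ⟨h.1.symm, by rw [G.adj_comm b a]; exact h.2⟩⟩
  loopless := ⟨fun a h => h.1 rfl⟩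

structure Sw {V : Type} (G : SimpleGraph V) (u v x y : V) : Prop where
  uv : G.Adj u v
  xy : G.Adj x y
  xu : x ≠ u
  xv : x ≠ v
  yu : y ≠ u
  yv : y ≠ v
  nxu : ¬ G.Adj x u
  nyv : ¬ G.Adj y v

theorem sw_symm1 {V : Type} (G : SimpleGraph V) (u v x y : V) : sw G u v x y = sw G v u y x := by
  ext a b
  simp only [sw]
  rw [Sym2.eq_swap (a := v) (b := u), Sym2.eq_swap (a := y) (b := x)]
  tauto

theorem sw_symm2 {V : Type} (G : SimpleGraph V) (u v x y : V) : sw G u v x y = sw G x y u v := by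
  ext a b
  simp only [sw]
  rw [Sym2.eq_swap (a := x) (b := u), Sym2.eq_swap (a := y) (b := v)]
  tauto

theorem Sw.symm1 {V : Type} {G : SimpleGraph V} {u v x y : V} (h : Sw G u v x y) : Sw G v u y x :=
  ⟨h.uv.symm, h.xy.symm, h.yv, h.yu, h.xv, h.xu, h.nyv, h.nxu⟩

theorem Sw.symm2 {V : Type} {G : SimpleGraph V} {u v x y : V} (h : Sw G u v x y) : Sw G x y u v :=
  ⟨h.xy, h.uv, h.xu.symm, h.yu.symm, h.xv.symm, h.yv.symm, fun h' => h.nxu h'.symm,
    fun h' => h.nyv h'.symm⟩

theorem sw_nb_u {V : Type} [Fintype V] {G : SimpleGraph V} {u v x y : V} (h : Sw G u v x y) :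
    (nb (sw G u v x y) u).card = (nb G u).card := by
  classical
  have h1 : nb (sw G u v x y) u = insert x ((nb G u).erase v) := by
    ext b
    rw [mem_nb, Finset.mem_insert, Finset.mem_erase, mem_nb]
    simp only [sw, Sym2.eq_iff, ne_eq]
    obtain ⟨h1, h2, h3, h4, h5, h6, h7, h8⟩ := h
    have huv := h1.ne
    have hxy := h2.ne
    constructor
    · rintro ⟨ha, ⟨hb, hc, hd⟩ | hb | hb⟩
      · right
        exact ⟨fun hbv => hc (Or.inl ⟨trivial, hbv⟩), hb⟩
      · rcases hb with ⟨_, hb⟩ | ⟨hb, _⟩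
        · exact Or.inl hb
        · exact absurd hb.symm h3
      · rcases hb with ⟨hb, _⟩ | ⟨hb, _⟩
        · exact absurd hb huv
        · exact absurd hb.symm h5
    · rintro (rfl | ⟨ha, hb⟩)
      · exact ⟨h3.symm, Or.inr (Or.inl (Or.inl ⟨trivial, rfl⟩))⟩
      · refine ⟨hb.ne, Or.inl ⟨hb, ?_, ?_⟩⟩
        · rintro (⟨_, hc⟩ | ⟨hc, _⟩)
          · exact ha hc
          · exact huv hc
        · rintro (⟨hc, _⟩ | ⟨hc, _⟩)
          · exact h3 hc.symm
          · exact h5 hc.symm
  have h2 : x ∉ (nb G u).erase v := by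
    rw [Finset.mem_erase, mem_nb]
    rintro ⟨_, h3⟩
    exact h.nxu h3.symm
  have h3 : v ∈ nb G u := (mem_nb _ _ _).2 h.uv
  rw [h1, Finset.card_insert_of_notMem h2, Finset.card_erase_of_mem h3]
  have : 0 < (nb G u).card := Finset.card_pos.2 ⟨v, h3⟩
  omega

theorem sw_nb_other {V : Type} [Fintype V] {G : SimpleGraph V} {u v x y w : V} 
    (h1 : w ≠ u) (h2 : w ≠ v) (h3 : w ≠ x) (h4 : w ≠ y) :
    nb (sw G u v x y) w = nb G w := by
  ext b
  rw [mem_nb, mem_nb]
  simp only [sw, Sym2.eq_iff, ne_eq]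
  constructor
  · rintro ⟨ha, ⟨hb, hc, hd⟩ | hb | hb⟩
    · exact hb
    · tauto
    · tauto
  · intro h
    refine ⟨h.ne, Or.inl ⟨h, ?_, ?_⟩⟩ <;> tauto

theorem sw_cub {V : Type} [Fintype V] {G : SimpleGraph V} {u v x y : V} (h : Sw G u v x y)
    (hG : G ∈ Cub V) : sw G u v x y ∈ Cub V := by
  rw [cub_iff_nb] at hG ⊢
  intro w
  by_cases h1 : w = u
  · subst h1; rw [sw_nb_u h, hG]
  by_cases h2 : w = v
  · subst h2; rw [sw_symm1, sw_nb_u h.symm1, hG]
  by_cases h3 : w = x
  · subst h3; rw [sw_symm2, sw_nb_u h.symm2, hG]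
  by_cases h4 : w = y
  · subst h4; rw [sw_symm2, sw_symm1, sw_nb_u h.symm2.symm1, hG]
  rw [sw_nb_other h1 h2 h3 h4, hG]

theorem sw_sw {V : Type} {G : SimpleGraph V} {u v x y : V} (h : Sw G u v x y) :
    sw (sw G u v x y) u x v y = G := by
  obtain ⟨h1, h2, h3, h4, h5, h6, h7, h8⟩ := h
  have e1 : ∀ a b, s(a, b) = s(u, v) → G.Adj a b := by
    intro a b hab
    rw [← SimpleGraph.mem_edgeSet, hab]; exact h1
  have e2 : ∀ a b, s(a, b) = s(x, y) → G.Adj a b := by
    intro a b hab
    rw [← SimpleGraph.mem_edgeSet, hab]; exact h2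
  have e3 : ∀ a b, s(a, b) = s(u, x) → ¬ G.Adj a b := by
    intro a b hab
    rw [← SimpleGraph.mem_edgeSet, hab]; exact fun h => h7 h.symm
  have e4 : ∀ a b, s(a, b) = s(v, y) → ¬ G.Adj a b := by
    intro a b hab
    rw [← SimpleGraph.mem_edgeSet, hab]; exact fun h => h8 h.symm
  ext a b
  simp only [sw]
  constructor
  · rintro ⟨ha, ⟨⟨_, hb⟩, hc, hd⟩ | hb | hb⟩
    · rcases hb with hb | hb | hb
      · exact hb.1
      · exact absurd hb hc
      · exact absurd hb hd
    · exact e1 a b hb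
    · exact e2 a b hb
  · intro hab
    refine ⟨hab.ne, ?_⟩
    by_cases c1 : s(a, b) = s(u, v)
    · exact Or.inr (Or.inl c1)
    by_cases c2 : s(a, b) = s(x, y)
    · exact Or.inr (Or.inr c2)
    exact Or.inl ⟨⟨hab.ne, Or.inl ⟨hab, c1, c2⟩⟩, fun h => e3 a b h hab, fun h => e4 a b h hab⟩

/-- good places for switching -/
noncomputable def goodP {V : Type} [Fintype V] (F : Finset (Sym2 V)) (G : SimpleGraph V) (u v : V) :
    Finset (V × V) := by
  classical
  exact Finset.univ.filter (fun p => Sw G u v p.1 p.2 ∧ s(p.1, p.2) ∉ F)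

theorem mem_goodP {V : Type} [Fintype V] (F : Finset (Sym2 V)) (G : SimpleGraph V) (u v : V)
    (p : V × V) : p ∈ goodP F G u v ↔ Sw G u v p.1 p.2 ∧ s(p.1, p.2) ∉ F := by
  unfold goodP; simp

open Classical in
theorem card_first {V : Type} [Fintype V] {G : SimpleGraph V} (hG : G ∈ Cub V) (S : Finset V) :
    (Finset.univ.filter (fun p : V × V => p.1 ∈ S ∧ G.Adj p.1 p.2)).card = 3 * S.card := by
  have h1 : (Finset.univ.filter (fun p : V × V => p.1 ∈ S ∧ G.Adj p.1 p.2)) =
      (S.sigma (fun w => nb G w)).map ⟨fun p => (p.1, p.2), by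
        rintro ⟨a, b⟩ ⟨c, d⟩ h
        obtain ⟨h1, h2⟩ := Prod.mk.inj h
        simp only at h1 h2
        subst h1; subst h2; rfl⟩ := by
    ext ⟨a, b⟩
    simp only [Finset.mem_filter, Finset.mem_univ, true_and, Finset.mem_map,
      Finset.mem_sigma, mem_nb]
    constructor
    · intro h
      exact ⟨⟨a, b⟩, h, rfl⟩
    · rintro ⟨⟨c, d⟩, h, h'⟩
      have h2 : (c, d) = (a, b) := h'
      obtain ⟨h3, h4⟩ := Prod.mk.inj h2
      subst h3; subst h4
      exact h
  rw [h1, Finset.card_map, Finset.card_sigma, Finset.sum_congr rfl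
    (fun w _ => (cub_iff_nb G).1 hG w), Finset.sum_const, smul_eq_mul, mul_comm]

open Classical in
theorem card_second {V : Type} [Fintype V] {G : SimpleGraph V} (hG : G ∈ Cub V) (S : Finset V) :
    (Finset.univ.filter (fun p : V × V => p.2 ∈ S ∧ G.Adj p.1 p.2)).card = 3 * S.card := by
  rw [← card_first hG S]
  apply Finset.card_bij (fun p _ => p.swap)
  · rintro ⟨a, b⟩ h
    simp only [Finset.mem_filter, Finset.mem_univ, true_and, Prod.swap] at h ⊢
    exact ⟨h.1, h.2.symm⟩
  · intro p _ q _ h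
    exact Prod.swap_injective h
  · rintro ⟨a, b⟩ h
    simp only [Finset.mem_filter, Finset.mem_univ, true_and] at h
    exact ⟨(b, a), by simpa using ⟨h.1, h.2.symm⟩, rfl⟩

open Classical in
theorem card_inF {V : Type} [Fintype V] (F : Finset (Sym2 V)) :
    (Finset.univ.filter (fun p : V × V => s(p.1, p.2) ∈ F)).card ≤ 2 * F.card := by
  refine (Finset.card_le_mul_card_image (f := fun p : V × V => s(p.1, p.2)) _ 2 ?_).trans ?_
  · intro e he
    induction e using Sym2.ind with
    | _ a b =>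
      refine (Finset.card_le_card (t := {(a, b), (b, a)}) ?_).trans (Finset.card_le_two)
      rintro ⟨c, d⟩ h
      simp only [Finset.mem_filter, Finset.mem_univ, true_and, Sym2.eq_iff] at h
      simp only [Finset.mem_insert, Finset.mem_singleton, Prod.mk.injEq]
      tauto
  · apply Nat.mul_le_mul_left
    apply Finset.card_le_card
    intro e he
    rw [Finset.mem_image] at he
    obtain ⟨p, hp, rfl⟩ := he
    exact (Finset.mem_filter.1 hp).2

theorem goodP_card {V : Type} [Fintype V] {G : SimpleGraph V} (hG : G ∈ Cub V)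
    (F : Finset (Sym2 V)) {u v : V} (huv : G.Adj u v) :
    3 * Fintype.card V ≤ (goodP F G u v).card + (30 + 2 * F.card) := by
  classical
  set S1 : Finset V := {u, v} ∪ nb G u with hS1
  set S2 : Finset V := {u, v} ∪ nb G v with hS2
  have c1 : S1.card ≤ 5 := by
    refine (Finset.card_union_le _ _).trans ?_
    rw [(cub_iff_nb G).1 hG u]
    have := Finset.card_le_two (a := u) (b := v)
    omega
  have c2 : S2.card ≤ 5 := by
    refine (Finset.card_union_le _ _).trans ?_
    rw [(cub_iff_nb G).1 hG v]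
    have := Finset.card_le_two (a := u) (b := v)
    omega
  have h0 := card_first hG (Finset.univ)
  rw [Finset.card_univ] at h0
  rw [← h0]
  have hsub : (Finset.univ.filter (fun p : V × V => p.1 ∈ (Finset.univ : Finset V) ∧
      G.Adj p.1 p.2)) ⊆ goodP F G u v ∪
      ((Finset.univ.filter (fun p : V × V => p.1 ∈ S1 ∧ G.Adj p.1 p.2)) ∪
      ((Finset.univ.filter (fun p : V × V => p.2 ∈ S2 ∧ G.Adj p.1 p.2)) ∪
      (Finset.univ.filter (fun p : V × V => s(p.1, p.2) ∈ F)))) := by
    rintro ⟨x, y⟩ h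
    have hxy : G.Adj x y := ((Finset.mem_filter.1 h).2).2
    simp only [Finset.mem_union, Finset.mem_filter, Finset.mem_univ, true_and, mem_goodP]
    by_cases e1 : x ∈ S1
    · exact Or.inr (Or.inl ⟨e1, hxy⟩)
    by_cases e2 : y ∈ S2
    · exact Or.inr (Or.inr (Or.inl ⟨e2, hxy⟩))
    by_cases e3 : s(x, y) ∈ F
    · exact Or.inr (Or.inr (Or.inr e3))
    left
    refine ⟨?_, e3⟩
    simp only [hS1, Finset.mem_union, Finset.mem_insert, Finset.mem_singleton, mem_nb,
      not_or] at e1
    simp only [hS2, Finset.mem_union, Finset.mem_insert, Finset.mem_singleton, mem_nb,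
      not_or] at e2
    exact ⟨huv, hxy, e1.1.1, e1.1.2, e2.1.1, e2.1.2, fun h => e1.2 h.symm, fun h => e2.2 h.symm⟩
  have t1 := card_first hG S1
  have t2 := card_second hG S2
  have t3 := card_inF F
  have t4 := Finset.card_le_card hsub
  have t5 := Finset.card_union_le (goodP F G u v)
      ((Finset.univ.filter (fun p : V × V => p.1 ∈ S1 ∧ G.Adj p.1 p.2)) ∪
      ((Finset.univ.filter (fun p : V × V => p.2 ∈ S2 ∧ G.Adj p.1 p.2)) ∪
      (Finset.univ.filter (fun p : V × V => s(p.1, p.2) ∈ F))))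
  have t6 := Finset.card_union_le (Finset.univ.filter (fun p : V × V => p.1 ∈ S1 ∧ G.Adj p.1 p.2))
      ((Finset.univ.filter (fun p : V × V => p.2 ∈ S2 ∧ G.Adj p.1 p.2)) ∪
      (Finset.univ.filter (fun p : V × V => s(p.1, p.2) ∈ F)))
  have t7 := Finset.card_union_le (Finset.univ.filter (fun p : V × V => p.2 ∈ S2 ∧ G.Adj p.1 p.2))
      (Finset.univ.filter (fun p : V × V => s(p.1, p.2) ∈ F))
  omega

open Classical in
/-- the switching lemma -/
theorem switching {V : Type} [Fintype V] (F : Finset (Sym2 V)) {u v : V} (hF : s(u, v) ∉ F) :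
    (EF (insert s(u, v) F)).card * (3 * Fintype.card V - (30 + 2 * F.card)) ≤
      9 * (EF F).card := by
  have h1 : (EF (insert s(u, v) F)).card * (3 * Fintype.card V - (30 + 2 * F.card)) ≤
      ((EF (insert s(u, v) F)).sigma (fun G => goodP F G u v)).card := by
    rw [Finset.card_sigma, ← smul_eq_mul]
    apply Finset.card_nsmul_le_sum
    intro G hG
    rw [mem_EF] at hG
    have := goodP_card hG.1 F (u := u) (v := v) (hG.2 _ (Finset.mem_insert_self _ _))
    omega
  have h2 : ((EF F).sigma (fun G => (nb G u) ×ˢ (nb G v))).card = 9 * (EF F).card := by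
    rw [Finset.card_sigma]
    have : ∀ G ∈ EF F, ((nb G u) ×ˢ (nb G v)).card = 9 := by
      intro G hG
      rw [mem_EF] at hG
      rw [Finset.card_product, (cub_iff_nb G).1 hG.1, (cub_iff_nb G).1 hG.1]
    rw [Finset.sum_congr rfl this, Finset.sum_const, smul_eq_mul, mul_comm]
  rw [← h2]
  refine h1.trans ?_
  apply Finset.card_le_card_of_injOn (fun p => ⟨sw p.1 u v p.2.1 p.2.2, p.2⟩)
  · rintro ⟨G, x, y⟩ h
    rw [Finset.mem_coe, Finset.mem_sigma] at h
    obtain ⟨hG, hxy⟩ := h
    rw [mem_EF] at hG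
    rw [mem_goodP] at hxy
    obtain ⟨hsw, hxyF⟩ := hxy
    rw [Finset.mem_coe, Finset.mem_sigma, mem_EF, Finset.mem_product, mem_nb, mem_nb]
    refine ⟨⟨sw_cub hsw hG.1, ?_⟩, ?_, ?_⟩
    · intro e he
      have he' := hG.2 e (Finset.mem_insert_of_mem he)
      induction e using Sym2.ind with
      | _ a b =>
        rw [SimpleGraph.mem_edgeSet] at he' ⊢
        refine ⟨he'.ne, Or.inl ⟨he', ?_, ?_⟩⟩
        · intro h; rw [h] at he; exact hF he
        · intro h; rw [h] at he; exact hxyF he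
    · exact ⟨hsw.xu.symm, Or.inr (Or.inl rfl)⟩
    · exact ⟨hsw.yv.symm, Or.inr (Or.inr rfl)⟩
  · rintro ⟨G, x, y⟩ h ⟨G', x', y'⟩ h' heq
    rw [Finset.mem_coe, Finset.mem_sigma, mem_goodP] at h h'
    obtain ⟨h1, h2⟩ := Sigma.mk.inj heq
    have h3 := eq_of_heq h2
    obtain ⟨h4, h5⟩ := Prod.mk.inj h3
    subst h4; subst h5
    simp only at h1
    have e1 := sw_sw h.2.1
    have e2 := sw_sw h'.2.1
    simp only at e1 e2
    rw [h1] at e1
    rw [e2] at e1
    subst e1
    rfl

theorem EF_empty {V : Type} [Fintype V] : EF (∅ : Finset (Sym2 V)) = Cub V := by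
  ext G; rw [mem_EF]; simp

open Classical in
theorem EF_bound {V : Type} [Fintype V] (F : Finset (Sym2 V)) :
    F.card + 15 ≤ Fintype.card V →
    (EF F).card * (Fintype.card V) ^ F.card ≤ 9 ^ F.card * (Cub V).card := by
  induction F using Finset.induction_on with
  | empty => intro _; rw [EF_empty]; simp
  | insert e F he ih =>
    intro h
    rw [Finset.card_insert_of_notMem he] at h ⊢
    have ih' := ih (by omega)
    induction e using Sym2.ind with
    | _ u v =>
      have h1 := switching F he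
      have h2 : Fintype.card V ≤ 3 * Fintype.card V - (30 + 2 * F.card) := by omega
      calc (EF (insert s(u, v) F)).card * Fintype.card V ^ (F.card + 1)
          = ((EF (insert s(u, v) F)).card * Fintype.card V) * Fintype.card V ^ F.card := by
            rw [pow_succ]; ring
        _ ≤ (9 * (EF F).card) * Fintype.card V ^ F.card :=
            Nat.mul_le_mul_right _ ((Nat.mul_le_mul_left _ h2).trans h1)
        _ = 9 * ((EF F).card * Fintype.card V ^ F.card) := by ring
        _ ≤ 9 * (9 ^ F.card * (Cub V).card) := Nat.mul_le_mul_left _ ih'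
        _ = 9 ^ (F.card + 1) * (Cub V).card := by rw [pow_succ]; ring

end Pool.Agent.Helper69.Kur
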